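import Mathlib

/-!
# GHC3: embeddings of number fields, and the complex extension of an embedding (for helper178)
-/

set_option linter.unusedSectionVars false

namespace Pool.Agent.N769.GX

open Finset Matrix Module NumberField

noncomputable section

/-- Embeddings into `ℂ` factor through a Galois field. -/
theorem exists_factor {L : Type} [Field L] [NumberField L] [IsGalois ℚ L]
    (j : L →+* ℂ) {E : Type} [Field E] [NumberField E] (ε : E →+* L) (ψ : E →+* ℂ) :
    ∃ φ : E →+* L, j.comp φ = ψ := by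
  let _ := ε.toAlgebra
  let _ := ψ.toAlgebra
  have hfd : FiniteDimensional E L := Module.Finite.of_restrictScalars_finite ℚ E L
  let Ψ : L →ₐ[E] ℂ := IsAlgClosed.lift
  have hinj : Function.Injective (fun g : L ≃ₐ[ℚ] L => j.comp (g : L →+* L)) := by
    intro g h hgh
    ext x
    exact j.injective (RingHom.congr_fun hgh x)
  have hfin : Finite (L →+* ℂ) := inferInstance
  have hbij : Function.Bijective (fun g : L ≃ₐ[ℚ] L => j.comp (g : L →+* L)) := by
    refine Function.Injective.bijective_of_nat_card_le hinj ?_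
    rw [IsGalois.card_aut_eq_finrank, Nat.card_eq_fintype_card, Embeddings.card]
  obtain ⟨σ, hσ⟩ := hbij.2 (Ψ : L →+* ℂ)
  refine ⟨(σ : L →+* L).comp ε, ?_⟩
  ext x
  have h1 := RingHom.congr_fun hσ (ε x)
  have h2 : Ψ (ε x) = ψ x := Ψ.commutes x
  exact h1.trans h2

/-- Subfields of even degree of Galois fields of degree at most six are Galois. -/
theorem gal_small {E L : Type} [Field E] [NumberField E] [Field L] [NumberField L] [IsGalois ℚ L]
    (ε : E →+* L) (hE : Even (finrank ℚ E)) (hL : finrank ℚ L ≤ 6) :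
    finrank ℚ E ≤ 6 ∧ IsGalois ℚ E := by
  let _ := ε.toAlgebra
  have hfd : FiniteDimensional E L := Module.Finite.of_restrictScalars_finite ℚ E L
  have h1 : finrank ℚ E * finrank E L = finrank ℚ L := Module.finrank_mul_finrank ℚ E L
  have h2 : 0 < finrank ℚ E := finrank_pos
  have h3 : 0 < finrank E L := finrank_pos
  obtain ⟨m, hm⟩ := hE
  have hm0 : 0 < m := by omega
  have h4 : finrank ℚ E ≤ finrank ℚ L := by
    rw [← h1]
    exact Nat.le_mul_of_pos_right _ h3
  refine ⟨h4.trans hL, ?_⟩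
  by_cases hm1 : m = 1
  · have h5 : finrank ℚ E = 2 := by omega
    have h6 : Algebra.IsQuadraticExtension ℚ E := ⟨h5⟩
    infer_instance
  · have hn : finrank E L = 1 := by
      by_contra hne
      have h7 : 2 ≤ finrank E L := by omega
      have h8 : 4 * 2 ≤ finrank ℚ E * finrank E L := Nat.mul_le_mul (by omega) h7
      omega
    have h9 : Function.Bijective ε := by
      refine ⟨ε.injective, ?_⟩
      have h10 := Algebra.surjective_algebraMap_iff.2
        (Subalgebra.bot_eq_top_of_finrank_eq_one hn).symm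
      exact h10
    let f : E ≃+* L := RingEquiv.ofBijective ε h9
    let f' : L ≃ₐ[ℚ] E := AlgEquiv.ofRingEquiv (f := f.symm) fun x => by
      rw [eq_ratCast, eq_ratCast, map_ratCast]
    exact IsGalois.of_algEquiv f'

section lam

variable {B : Type} [Fintype B] [DecidableEq B] {E : Type} [Field E] [NumberField E]
  (e : (B → ℚ) ≃ₗ[ℚ] E)

/-- The complex linear extension of `ψ ∘ e`. -/
def lam (ψ : E →+* ℂ) : (B → ℂ) →ₗ[ℂ] ℂ where
  toFun v := ∑ i, v i * ψ (e (Pi.single i 1))
  map_add' v w := by simp [add_mul, sum_add_distrib]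
  map_smul' c v := by simp [mul_sum, mul_assoc]

theorem lam_apply (ψ : E →+* ℂ) (v : B → ℂ) :
    lam e ψ v = ∑ i, v i * ψ (e (Pi.single i 1)) := rfl

theorem lam_rat (ψ : E →+* ℂ) (w : B → ℚ) :
    lam e ψ (fun i => ((w i : ℚ) : ℂ)) = ψ (e w) := by
  rw [lam_apply]
  have h1 : w = ∑ i, w i • (Pi.single i 1 : B → ℚ) := by
    funext j
    rw [Finset.sum_apply]
    simp [Pi.single_apply]
  conv_rhs => rw [h1, map_sum, map_sum]
  refine sum_congr rfl fun i _ => ?_
  rw [map_smul, Algebra.smul_def, map_mul, eq_ratCast, map_ratCast]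

theorem lam_aut (ψ : E →+* ℂ) (σ : ℂ ≃+* ℂ) (v : B → ℂ) :
    lam e ((σ : ℂ →+* ℂ).comp ψ) v = σ (lam e ψ fun i => σ.symm (v i)) := by
  rw [lam_apply, lam_apply, map_sum]
  refine sum_congr rfl fun i _ => ?_
  rw [map_mul, RingEquiv.apply_symm_apply]
  rfl

theorem exists_lam {u : B → ℂ} (hu : u ≠ 0) : ∃ ψ : E →+* ℂ, lam e ψ u ≠ 0 := by
  by_contra hcon
  push Not at hcon
  let b : Basis B ℚ E := (Pi.basisFun ℚ B).map e
  have hb : ∀ i, b i = e (Pi.single i 1) := fun i => by
    rw [Basis.map_apply, Pi.basisFun_apply]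
  have hcard : Fintype.card B = Fintype.card (E →ₐ[ℚ] ℂ) := by
    rw [AlgHom.card, finrank_eq_card_basis b]
  let ε : B ≃ (E →ₐ[ℚ] ℂ) := Fintype.equivOfCardEq hcard
  have h1 := Algebra.discr_eq_det_embeddingsMatrixReindex_pow_two ℚ ℂ b ε
  have h2 := Algebra.discr_not_zero_of_basis ℚ b
  have h3 : (Algebra.embeddingsMatrixReindex ℚ ℂ b ε).det = 0 := by
    refine Matrix.exists_vecMul_eq_zero_iff.1 ⟨u, hu, ?_⟩
    funext i
    have h4 := hcon (ε i : E →+* ℂ)
    rw [lam_apply] at h4
    rw [Pi.zero_apply, ← h4]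
    refine sum_congr rfl fun k _ => ?_
    change u k * ε i (b k) = _
    rw [hb]
    rfl
  rw [h3, zero_pow two_ne_zero] at h1
  exact h2 (by simpa using h1)

end lam

end

end Pool.Agent.N769.GX
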