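import Mathlib
import Pool.Agent.N178.HX.StmE
import Pool.Agent.N830.HC.E1
import Pool.Agent.N769.GX.Emb

/-!
# GHC3/ALLC: the Hodge conjecture for independent Galois CM fields of degree at most six
(for helper178)
-/

set_option linter.unusedSectionVars false

namespace Pool.Agent.N769.GX

open Finset Matrix Module NumberField Pool.Agent.Y90 Pool.Agent.R915
open Pool.Agent.H204R3.CM (IsHodge IsCMType)
open Pool.Agent.W547.KB (CMPair CMAV single)
open Pool.Agent.N178.HX
open Pool.Agent.N830.HC (HasCMultIn av all_of_types exists_typeL exists_type_quad)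

noncomputable section

theorem even_pair (P : CMPair) : Even (finrank ℚ P.E) := by
  rw [finrank_pair]
  exact even_two_mul _

theorem blocks {K : Type} (L : K → Type) [∀ k, Field (L k)] [∀ k, NumberField (L k)]
    [∀ k, IsGalois ℚ (L k)] (hI : Ind L) (hL : ∀ k, finrank ℚ (L k) ≤ 6) (C : CMAV)
    (b : C.I → K) (ε : ∀ i, (C.factor i).E →+* L (b i)) :
    Pool.Agent.W547.UB.IndependentBlocks C b where
  good _ := .small (fun i _ => (gal_small (ε i) (even_pair _) (hL _)).1)
    fun i _ _ _ _ => Or.inl (gal_small (ε i) (even_pair _) (hL _)).2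
  independent j := by
    classical
    let φ : ∀ k, L k →+* ℂ := fun k => Classical.choice inferInstance
    obtain ⟨σ, hσ⟩ := hI φ fun k => if k = j then ComplexEmbedding.conjugate (φ k) else φ k
    refine ⟨σ, fun i ψ => ?_⟩
    obtain ⟨η, hη⟩ := exists_factor (φ (b i)) (ε i) ψ
    have h1 := hσ (b i)
    refine ⟨fun h => ?_, fun h => ?_⟩
    · rw [if_pos h] at h1
      rw [← hη, ← RingHom.comp_assoc, h1]
      rfl
    · rw [if_neg h] at h1
      rw [← hη, ← RingHom.comp_assoc, h1]

theorem t_ALLC : S_ALLC := by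
  intro K _ L _ _ _ _ hI hL 𝒜 X hX
  refine all_of_types 𝒜 (fun P => ∃ k, Nonempty (P.E →+* L k)) (fun C hp hC κ _ f hf => ?_) X
    fun Y hY => ?_
  · choose b hb using hC
    have h1 := (Pool.Agent.W547.UB.isHodge_iff_ring_blocks C b
      (blocks L hI hL C b fun i => (hb i).some) f).1 hf
    exact ring_alg 𝒜 h1 (avC C hp) LinearMap.id LinearMap.id fun v => rfl
  · rcases hX Y hY with ⟨k, hk⟩ | ⟨h1, h2, h3⟩
    · obtain ⟨P, h4, h5⟩ := exists_typeL Y hY.1 hk
      exact Or.inl ⟨P, ⟨k, h5⟩, h4⟩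
    · refine Or.inr ⟨h1, h2, fun E d hd hE hcm hdim hU => ?_⟩
      obtain ⟨-, k, s, hs⟩ := h3 d hd
      obtain ⟨P, h4, h5⟩ := exists_type_quad E hE hcm hdim hU hs
      exact ⟨P, ⟨k, h5⟩, h4⟩

end

end Pool.Agent.N769.GX
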