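import Mathlib
import Pool.Agent.N178.HX.StmE
import Pool.Agent.N830.HC.C1

/-!
# GHC3/CL: the product of the abelian varieties of all CM types of the fields (for helper178)
-/

set_option linter.unusedSectionVars false

namespace Pool.Agent.N769.GX

open Finset Matrix Module NumberField Pool.Agent.Y90 Pool.Agent.R915
open Pool.Agent.H204R3.CM (IsHodge IsCMType)
open Pool.Agent.W547.KB (CMPair CMAV single)
open Pool.Agent.N178.HX
open Pool.Agent.N830.HC (HasCMultIn av cm_of_factor)

noncomputable section

/-- The inclusion of a factor. -/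
def inclH (X : CMAV) [DecidableEq X.I] (i : X.I) : (single (X.factor i)).H1 →ₗ[ℚ] X.H1 where
  toFun w := fun k => if h : i = k then h ▸ (show (X.factor i).E from w ()) else 0
  map_add' v w := by
    funext k
    by_cases h : i = k
    · subst h
      simp only [dif_pos, Pi.add_apply]
    · simp only [dif_neg h, Pi.add_apply, add_zero]
  map_smul' c v := by
    funext k
    by_cases h : i = k
    · subst h
      simp only [dif_pos, Pi.smul_apply, RingHom.id_apply]
    · simp only [dif_neg h, Pi.smul_apply, smul_zero]

theorem inclH_same (X : CMAV) [DecidableEq X.I] (i : X.I) (w : (single (X.factor i)).H1) :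
    inclH X i w i = w () := dif_pos rfl

theorem inclH_ne (X : CMAV) [DecidableEq X.I] {i k : X.I} (h : i ≠ k)
    (w : (single (X.factor i)).H1) : inclH X i w k = 0 := dif_neg h

/-- The inclusion of the tangent space of a factor. -/
def inclT (X : CMAV) [DecidableEq X.I] (i : X.I) : (single (X.factor i)).Tan →ₗ[ℂ] X.Tan where
  toFun w := fun k => if h : i = k then h ▸ (show (X.factor i).Φ → ℂ from w ()) else 0
  map_add' v w := by
    funext k
    by_cases h : i = k
    · subst h
      simp only [dif_pos, Pi.add_apply]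
    · simp only [dif_neg h, Pi.add_apply, add_zero]
  map_smul' c v := by
    funext k
    by_cases h : i = k
    · subst h
      simp only [dif_pos, Pi.smul_apply, RingHom.id_apply]
    · simp only [dif_neg h, Pi.smul_apply, smul_zero]

theorem inclT_same (X : CMAV) [DecidableEq X.I] (i : X.I) (w : (single (X.factor i)).Tan) :
    inclT X i w i = w () := dif_pos rfl

theorem inclT_ne (X : CMAV) [DecidableEq X.I] {i k : X.I} (h : i ≠ k)
    (w : (single (X.factor i)).Tan) : inclT X i w k = 0 := dif_neg h

theorem inclH_hom (X : CMAV) [DecidableEq X.I] (i : X.I) :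
    IsHom (av (single (X.factor i))) (av X) (inclH X i) := by
  refine ⟨inclT X i, fun (v : (single (X.factor i)).H1) => ?_⟩
  change inclT X i ((single (X.factor i)).per v) = X.per (inclH X i v)
  funext k φ
  by_cases h : i = k
  · subst h
    rw [inclT_same]
    change φ.1 (v ()) = φ.1 (inclH X i v i)
    rw [inclH_same]
  · rw [inclT_ne X h]
    change 0 = φ.1 (inclH X i v k)
    rw [inclH_ne X h]
    exact (map_zero φ.1).symm

theorem inclH_inj (X : CMAV) [DecidableEq X.I] (i : X.I) : Function.Injective (inclH X i) := by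
  intro v w hvw
  have h1 : inclH X i v i = inclH X i w i := by rw [hvw]
  rw [inclH_same, inclH_same] at h1
  funext u
  exact h1

theorem t_CL : S_CL := by
  intro K _ L _ _ _
  classical
  have hfin : Finite (Σ k, {P : Set (L k →+* ℂ) // IsCMType P}) := inferInstance
  let _ : Fintype (Σ k, {P : Set (L k →+* ℂ) // IsCMType P}) := Fintype.ofFinite _
  let X : CMAV := ⟨Σ k, {P : Set (L k →+* ℂ) // IsCMType P}, fun t => ⟨L t.1, t.2.1, t.2.2⟩⟩
  refine ⟨av X, fun Y hY => Or.inl ?_, fun k P hP => ?_⟩
  · obtain ⟨t, ht⟩ := cm_of_factor X Y hY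
    exact ⟨t.1, ht⟩
  · exact ⟨inclH X ⟨k, P, hP⟩, inclH_hom X ⟨k, P, hP⟩, inclH_inj X ⟨k, P, hP⟩⟩

end

end Pool.Agent.N769.GX
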