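import Mathlib
import Pool.Agent.N178.HW.StmC
import Pool.Agent.N769.GX.Emb

/-!
# GHC3: the lines attached to a factor of CM type (for helper178)
-/

set_option linter.unusedSectionVars false

namespace Pool.Agent.N769.GX

open Finset Matrix Module NumberField Pool.Agent.W437.HC Pool.Agent.W437.HD Pool.Agent.TH504.CB
open Pool.Agent.Y90 Pool.Agent.R915
open Pool.Agent.W548.Odd hiding cv
open Pool.Agent.H204R3.CM (IsHodge IsCMType)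
open Pool.Agent.W437.HP (cK cK_mul cK_one)
open Pool.Agent.W547.KB (CMPair CMAV single)

noncomputable section

open Classical in
/-- The sign of an embedding. -/
def sg {E : Type} [Field E] (Φ : Set (E →+* ℂ)) (ψ : E →+* ℂ) : ℤ := if ψ ∈ Φ then 1 else -1

theorem sg_pos {E : Type} [Field E] {Φ : Set (E →+* ℂ)} {ψ : E →+* ℂ} (h : ψ ∈ Φ) :
    sg Φ ψ = 1 := if_pos h

theorem sg_neg {E : Type} [Field E] {Φ : Set (E →+* ℂ)} {ψ : E →+* ℂ} (h : ψ ∉ Φ) :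
    sg Φ ψ = -1 := if_neg h

theorem sg_or {E : Type} [Field E] (Φ : Set (E →+* ℂ)) (ψ : E →+* ℂ) :
    sg Φ ψ = 1 ∨ sg Φ ψ = -1 := by
  by_cases h : ψ ∈ Φ
  · exact Or.inl (sg_pos h)
  · exact Or.inr (sg_neg h)

variable {g : ℕ} {Z : Matrix (Fin g) (Fin g) ℂ} {P : CMPair}
  (e : (Fin g ⊕ Fin g → ℚ) ≃ₗ[ℚ] P.E) (Ψ : (Fin g → ℂ) ≃ₗ[ℂ] (P.Φ → ℂ))

theorem lam_symm (ψ : P.E →+* ℂ) (σ : ℂ ≃+* ℂ) (v : Fin g ⊕ Fin g → ℂ) :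
    lam e ψ v = σ (lam e ((σ.symm : ℂ →+* ℂ).comp ψ) fun i => σ.symm (v i)) := by
  rw [← lam_aut e ((σ.symm : ℂ →+* ℂ).comp ψ) σ v]
  have h1 : (σ : ℂ →+* ℂ).comp ((σ.symm : ℂ →+* ℂ).comp ψ) = ψ := by
    ext x
    exact σ.apply_symm_apply (ψ x)
  rw [h1]

theorem lam_pos (h : PM Z) (hΨ : ∀ v φ, Ψ (perOne Z v) φ = φ.1 (e v)) {ψ : P.E →+* ℂ}
    (hψ : ψ ∈ P.Φ) (v : Fin g ⊕ Fin g → ℂ) : lam e ψ (DZ Z *ᵥ v) = lam e ψ v := by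
  have h1 : lam e ψ =
      (LinearMap.proj (⟨ψ, hψ⟩ : P.Φ)).comp (Ψ.toLinearMap.comp (perC Z)) := by
    refine (Pi.basisFun ℂ (Fin g ⊕ Fin g)).ext fun i => ?_
    rw [Pi.basisFun_apply, ← single_cv]
    change lam e ψ (cv (Pi.single i 1)) = Ψ (perC Z (cv (Pi.single i 1))) ⟨ψ, hψ⟩
    rw [perC_rat, hΨ]
    exact lam_rat e ψ _
  rw [h1]
  change Ψ (perC Z (DZ Z *ᵥ v)) _ = Ψ (perC Z v) _
  rw [perC_DZ h]

theorem lam_DZ (h : PM Z) (hΨ : ∀ v φ, Ψ (perOne Z v) φ = φ.1 (e v)) (ψ : P.E →+* ℂ)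
    (v : Fin g ⊕ Fin g → ℂ) : lam e ψ (DZ Z *ᵥ v) = (sg P.Φ ψ : ℂ) * lam e ψ v := by
  by_cases hψ : ψ ∈ P.Φ
  · rw [sg_pos hψ, lam_pos e Ψ h hΨ hψ, Int.cast_one, one_mul]
  · have h1 : ((cc.symm : ℂ ≃+* ℂ) : ℂ →+* ℂ).comp ψ ∈ P.Φ := by
      by_contra hcon
      exact hψ ((P.isCMType ψ).2 hcon)
    rw [sg_neg hψ, lam_symm e ψ cc, lam_symm e ψ cc v, map_mulVec_aut, cc_symm, Pool.Agent.Y90.DZ_conj,
      neg_mulVec, map_neg, map_neg]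
    rw [cc_symm] at h1
    rw [lam_pos e Ψ h hΨ h1]
    push_cast
    ring

theorem lam_DS (h : PM Z) (hΨ : ∀ v φ, Ψ (perOne Z v) φ = φ.1 (e v)) (ψ : P.E →+* ℂ)
    (σ : ℂ ≃+* ℂ) (v : Fin g ⊕ Fin g → ℂ) :
    lam e ψ (DS Z σ *ᵥ v) = (sg P.Φ ((σ.symm : ℂ →+* ℂ).comp ψ) : ℂ) * lam e ψ v := by
  have h1 : (DS Z σ).map σ.symm = DZ Z := by
    ext i j
    exact σ.symm_apply_apply _
  rw [lam_symm e ψ σ, lam_symm e ψ σ v, map_mulVec_aut, h1, lam_DZ e Ψ h hΨ, map_mul, map_intCast]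

/-- The traces of the complex structure on the conjugates of a line. -/
theorem line_tr (h : PM Z) (hP : IsOfType (AVZ h) P) {U : Submodule ℂ (Fin g ⊕ Fin g → ℂ)}
    (hU : IrS (Pool.Agent.Y90.LZ Z) U) (h1 : finrank ℂ U = 1) :
    ∃ ψ : P.E →+* ℂ, ∀ σ : ℂ ≃+* ℂ, tr Z (cjS σ U) = sg P.Φ ((σ : ℂ →+* ℂ).comp ψ) := by
  obtain ⟨e, Ψ, hΨ⟩ := hP
  have hΨ' : ∀ v φ, Ψ (perOne Z v) φ = φ.1 (e v) := hΨ
  obtain ⟨μ, hμ1, hμ2⟩ := exists_mu h hU h1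
  obtain ⟨w, hw0, hw⟩ := finrank_eq_one_iff'.1 h1
  have hw1 : (w : Fin g ⊕ Fin g → ℂ) ≠ 0 := fun h0 => hw0 (Subtype.ext h0)
  obtain ⟨ψ, hψ⟩ := exists_lam (B := Fin g ⊕ Fin g) (E := P.E) e hw1
  refine ⟨ψ, fun σ => ?_⟩
  obtain ⟨c, hc⟩ := hw ⟨DS Z σ.symm *ᵥ w, hU.2.1 _ (DS_mem σ.symm) _ w.2⟩
  have hc' : c • (w : Fin g ⊕ Fin g → ℂ) = DS Z σ.symm *ᵥ w := congrArg Subtype.val hc
  have hμw : μ (w : Fin g ⊕ Fin g → ℂ) ≠ 0 := fun h0 => hw1 (hμ1 _ w.2 h0)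
  have e1 := hμ2 σ.symm w
  rw [← hc', map_smul, smul_eq_mul] at e1
  have e2 := lam_DS e Ψ h hΨ' ψ σ.symm w
  rw [← hc', map_smul, smul_eq_mul] at e2
  have e3 := mul_right_cancel₀ hμw e1
  have e4 := mul_right_cancel₀ hψ e2
  have e5 : ((tr Z (cjS σ U) : ℤ) : ℂ) = (sg P.Φ ((σ : ℂ →+* ℂ).comp ψ) : ℂ) := e3.symm.trans e4
  exact_mod_cast e5

end

end Pool.Agent.N769.GX
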