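import Mathlib
import Pool.Agent.N178.HX.StmE
import Pool.Agent.N141.GHC.Loc
import Pool.Agent.N769.GX.Line

/-!
# GHC3/LOCG: the traces of the complex structure on the irreducible submodules (for helper178)
-/

set_option linter.unusedSectionVars false

namespace Pool.Agent.N769.GX

open Finset Matrix Module NumberField Pool.Agent.W437.HC Pool.Agent.W437.HD Pool.Agent.TH504.CB
open Pool.Agent.Y90 Pool.Agent.R915
open Pool.Agent.W548.Odd hiding cv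
open Pool.Agent.H204R3.CM (IsHodge IsCMType)
open Pool.Agent.W437.HP (cK cK_mul cK_one)
open Pool.Agent.W547.KB (CMPair CMAV single)
open Pool.Agent.N178.HW Pool.Agent.N178.HX
open Pool.Agent.N830.HC (HasCMultIn exists_typeL lc_of)
open Pool.Agent.N141.GHC (fac_hom)

noncomputable section

section

variable {g : ℕ} {Z : Matrix (Fin g) (Fin g) ℂ} {U : Submodule ℂ (Fin g ⊕ Fin g → ℂ)}

theorem scal_pos (h : PM Z) (hU : Stab (Pool.Agent.Y90.LZ Z) U) (hq : qd Z U = 0) :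
    ∀ u ∈ U, DS Z (RingEquiv.refl ℂ) *ᵥ u = (1 : ℂ) • u := by
  intro u hu
  have h1 := pd_add_qd h hU
  have h2 : U ⊓ eig Z 1 = U := by
    refine Submodule.eq_of_le_of_finrank_eq inf_le_left ?_
    rw [← h1, hq]
    rfl
  have h3 : u ∈ U ⊓ eig Z 1 := by rw [h2]; exact hu
  exact h3.2

theorem scal_neg (h : PM Z) (hU : Stab (Pool.Agent.Y90.LZ Z) U) (hq : pd Z U = 0) :
    ∀ u ∈ U, DS Z (RingEquiv.refl ℂ) *ᵥ u = (-1 : ℂ) • u := by
  intro u hu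
  have h1 := pd_add_qd h hU
  have h2 : U ⊓ eig Z (-1) = U := by
    refine Submodule.eq_of_le_of_finrank_eq inf_le_left ?_
    rw [← h1, hq, zero_add]
    rfl
  have h3 : u ∈ U ⊓ eig Z (-1) := by rw [h2]; exact hu
  exact h3.2

/-- The signs are determined by the values on a field which contains the square root. -/
theorem rho_eq {δ : ℚ} (hδ : 0 < δ) {L : Type} [Field L] [NumberField L] (j : L →+* ℂ) {s : L}
    (hs : s * s = -(δ : L)) {σ τ : ℂ ≃+* ℂ} (h : ∀ x, σ (j x) = τ (j x)) : rho δ σ = rho δ τ := by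
  have h1 : j s * j s = -(δ : ℂ) := by rw [← map_mul, hs, map_neg, map_ratCast]
  have h2 := Irt_sq hδ
  have h3 : (Complex.I * rt δ - j s) * (Complex.I * rt δ + j s) = 0 := by
    linear_combination h2 - h1
  have h4 : σ (Complex.I * rt δ) = τ (Complex.I * rt δ) := by
    rcases mul_eq_zero.1 h3 with h5 | h5
    · rw [sub_eq_zero.1 h5]
      exact h s
    · rw [eq_neg_of_add_eq_zero_left h5, map_neg, map_neg, h s]
  unfold rho
  rw [h4]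

end

section

variable {K : Type} (L : K → Type) [∀ k, Field (L k)] [∀ k, NumberField (L k)]
  [∀ k, IsGalois ℚ (L k)] (j : ∀ k, L k →+* ℂ) {g : ℕ} {Z : Matrix (Fin g) (Fin g) ℂ}
  {U : Submodule ℂ (Fin g ⊕ Fin g → ℂ)} {a : ℕ} {Z' : Matrix (Fin a) (Fin a) ℂ}
  {E : Matrix (Fin g ⊕ Fin g) (Fin a ⊕ Fin a) ℚ} {F : Matrix (Fin a ⊕ Fin a) (Fin g ⊕ Fin g) ℚ}

theorem cx_case (h : PM Z) (hC : Cls L (AVZ h)) (hU : IrS (Pool.Agent.Y90.LZ Z) U)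
    (k : CX Z U a Z' E F) :
    (∀ σ : ℂ ≃+* ℂ, tr Z (cjS σ U) = 1 ∨ tr Z (cjS σ U) = -1) ∧
      ∃ k, ∀ σ τ : ℂ ≃+* ℂ, (∀ x, σ (j k x) = τ (j k x)) → tr Z (cjS σ U) = tr Z (cjS τ U) := by
  obtain ⟨i, hi, hinj⟩ := fac_hom k.fac h k.pm
  have hs := simple_of a k.pm k.simple k.pos
  rcases hC _ ⟨hs, i, hi, hinj⟩ with ⟨kk, hkk⟩ | ⟨hn, -⟩
  swap
  · exact absurd k.cm hn
  obtain ⟨P, hP, ⟨ε⟩⟩ := exists_typeL _ hs hkk
  have hne : ∃ u ∈ U, ml F u ≠ 0 := by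
    obtain ⟨u, hu, hu0⟩ := Submodule.exists_mem_ne_zero_of_ne_bot hU.1
    exact ⟨u, hu, fun h0 => hu0 (k.inj u hu h0)⟩
  have hU' := k.fac.irr hU hne
  obtain ⟨ψ, hψ⟩ := line_tr k.pm hP hU' (by rw [finrank_ml k.inj]; exact k.dim)
  have key : ∀ σ, tr Z (cjS σ U) = sg P.Φ ((σ : ℂ →+* ℂ).comp ψ) := fun σ => by
    rw [← k.tr_cj hU.2.1 σ, hψ]
  refine ⟨fun σ => by rw [key]; exact sg_or _ _, kk, fun σ τ hστ => ?_⟩
  obtain ⟨η, hη⟩ := exists_factor (j kk) ε ψ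
  rw [key, key]
  congr 1
  ext x
  have h2 : ψ x = j kk (η x) := by rw [← hη]; rfl
  change σ (ψ x) = τ (ψ x)
  rw [h2]
  exact hστ _

theorem kx_case {φ : Matrix (Fin a ⊕ Fin a) (Fin a ⊕ Fin a) ℚ} {α : ℂ} {δ : ℚ} (h : PM Z)
    (hC : Cls L (AVZ h)) (hU : IrS (Pool.Agent.Y90.LZ Z) U) (k : KX Z U a Z' E F φ α δ)
    (hs : IsSimpleAV Z') (ha : 0 < a) (hn : ∀ h₂ : PM Z', ¬ HasCMult (AVZ h₂))
    (hns : 2 ≤ finrank ℂ U → ∀ (σ : ℂ ≃+* ℂ) (c : ℂ), ∃ u ∈ U, DS Z σ *ᵥ u ≠ c • u) :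
    (tr Z U = -1 ∨ tr Z U = 0 ∨ tr Z U = 1) ∧ (∀ σ, tr Z (cjS σ U) = tr Z U * rho δ σ) ∧
      (tr Z U ≠ 0 → ∃ k, ∀ σ τ : ℂ ≃+* ℂ, (∀ x, σ (j k x) = τ (j k x)) → rho δ σ = rho δ τ) := by
  obtain ⟨i, hi, hinj⟩ := fac_hom k.fac h k.pm
  have hs' := simple_of a k.pm hs ha
  have h0 : tr Z' (U.map (ml F)) = tr Z U := k.fac.tr_map k.inj hU.2.1
  have hrho : ∀ σ, tr Z (cjS σ U) = tr Z U * rho δ σ := fun σ => by
    rw [k.tr_rho hU.2.1, h0]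
  by_cases ht : tr Z U = 0
  · exact ⟨Or.inr (Or.inl ht), hrho, fun h1 => absurd ht h1⟩
  have hunb : Unbalanced (AVZ k.pm) δ := k.kw.unbalanced k.pm (by rw [h0]; exact ht)
  rcases hC _ ⟨hs', i, hi, hinj⟩ with ⟨kk, hkk⟩ | ⟨-, -, h3⟩
  · exact absurd (Pool.Agent.N830.HC.HasCMultIn.cm hkk) (hn k.pm)
  obtain ⟨h4, kk, s, hsd⟩ := h3 δ hunb
  refine ⟨?_, hrho, fun _ => ⟨kk, fun σ τ hστ => rho_eq k.kw.pos (j kk) hsd hστ⟩⟩
  rw [finrank_AVZ] at h4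
  have h5 := k.small
  rw [h0] at h5
  have h6 := pd_add_qd h hU.2.1
  have h7 : finrank ℂ U = a := by rw [← finrank_ml k.inj, k.kw.dim]
  rw [h7] at h6
  by_contra hcon
  have h8 : tr Z U = (pd Z U : ℤ) - qd Z U := rfl
  have h9 : (pd Z U = 0 ∨ qd Z U = 0) ∧ 2 ≤ a := by omega
  obtain ⟨h9, h10⟩ := h9
  rcases h9 with h9 | h9
  · obtain ⟨u, hu, hu'⟩ := hns (by rw [h7]; exact h10) (RingEquiv.refl ℂ) (-1)
    exact hu' (scal_neg h hU.2.1 h9 u hu)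
  · obtain ⟨u, hu, hu'⟩ := hns (by rw [h7]; exact h10) (RingEquiv.refl ℂ) 1
    exact hu' (scal_pos h hU.2.1 h9 u hu)

/-- The local conditions. -/
theorem lcf (h : PM Z) (hC : Cls L (AVZ h)) : LCF' Z := by
  intro a Z' E F hf h' hsim ha
  obtain ⟨i, hi, hinj⟩ := fac_hom hf h h'
  have hs := simple_of a h' hsim ha
  rcases hC _ ⟨hs, i, hi, hinj⟩ with ⟨kk, hkk⟩ | ⟨h1, h2, -⟩
  · exact Or.inr (Pool.Agent.N830.HC.HasCMultIn.cm hkk)
  · exact Or.inl ⟨h1, lc_of h' hs ha h1 h2⟩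

end

theorem t_LOCG : S_LOCG := by
  intro K L _ _ _ j g Z h hC
  have hL := lcf L h hC
  have key : ∀ U, IrS (Pool.Agent.Y90.LZ Z) U → tr Z U ≠ 0 →
      (tr Z U = -1 ∨ tr Z U = 0 ∨ tr Z U = 1) ∧ (∀ σ : ℂ ≃+* ℂ, tr Z (cjS σ U) ≠ 0) ∧
        ∃ k, ∀ σ τ : ℂ ≃+* ℂ, (∀ x, σ (j k x) = τ (j k x)) →
          tr Z (cjS σ U) = tr Z (cjS τ U) := by
    intro U hU ht
    obtain ⟨hns, hcase⟩ := loc2 h hL hU
    rcases hcase with ⟨⟨b, h0, hb⟩, -⟩ | ⟨a, Z', E, F, φ, α, δ, k, hs, ha, hn⟩ |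
      ⟨a, Z', E, F, k⟩
    · exfalso
      have := tr_dual h hU hU h0 hb
      omega
    · obtain ⟨h1, h2, h3⟩ := kx_case L j h hC hU k hs ha hn fun h4 => (hns h4).2
      obtain ⟨kk, hkk⟩ := h3 ht
      refine ⟨h1, fun σ => ?_, kk, fun σ τ hστ => by rw [h2, h2, hkk σ τ hστ]⟩
      rw [h2]
      refine mul_ne_zero ht ?_
      rcases rho_pm δ σ with h6 | h6 <;> rw [h6] <;> norm_num
    · obtain ⟨h1, h2⟩ := cx_case L j h hC hU k
      have h3 := h1 (RingEquiv.refl ℂ)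
      have h4 : cjS (RingEquiv.refl ℂ) U = U := by
        ext v
        rfl
      rw [h4] at h3
      refine ⟨by omega, fun σ => ?_, h2⟩
      rcases h1 σ with h5 | h5 <;> rw [h5] <;> norm_num
  refine ⟨hL, fun U hU => ?_, fun U hU => ?_⟩
  · by_cases ht : tr Z U = 0
    · exact Or.inr (Or.inl ht)
    · exact (key U hU ht).1
  · by_cases ht : tr Z U = 0
    · left
      intro σ
      by_contra hne
      have h1 := (key _ (hU.cj gal_LZ σ) hne).2.1 σ.symm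
      rw [cjS_symm] at h1
      exact h1 ht
    · right
      exact (key U hU ht).2.2

end

end Pool.Agent.N769.GX
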